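import Pool.Agent.Y949.GJ.Err7a

set_option autoImplicit false

/-! Project GJ of helper883: the replacement of the primes by the sieve models (helper949). -/

namespace Pool.Agent.Y949.GJ

open Finset
open Pool.Agent.Y883.GJ
open Pool.Agent.H807R2.Dav (ee)
open Pool.Agent.H373R2.T7 (lamz Vz pz)
open Pool.Agent.Y883.T3 (lsh)
open Pool.Agent.Y883.T6 (S3 zP)

lemma swap7 {ρ : ℝ} {N T : ℕ} {c1 c2 c3 d : ℤ} {P1 P2 P3 : ℕ} (h : Par7 ρ N T c1 c2 c3 d P1 P2 P3) :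
    Par7 ρ N T c2 c1 c3 d P2 P1 P3 :=
  ⟨h.n2, h.n1, h.n3, h.u2, h.u1, h.u3, h.v2, h.v1, h.v3, h.hd, h.q2, h.q1, by rw [mul_comm]; exact h.q3,
    h.g12.symm, h.g23, h.g13, by
      rw [show c2.natAbs * c1.natAbs * c3.natAbs = c1.natAbs * c2.natAbs * c3.natAbs by ring]; exact h.gd⟩

lemma rot7 {ρ : ℝ} {N T : ℕ} {c1 c2 c3 d : ℤ} {P1 P2 P3 : ℕ} (h : Par7 ρ N T c1 c2 c3 d P1 P2 P3) :
    Par7 ρ N T c2 c3 c1 d P2 P3 P1 :=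
  ⟨h.n2, h.n3, h.n1, h.u2, h.u3, h.u1, h.v2, h.v3, h.v1, h.hd, by rw [mul_comm]; exact h.q2,
    by rw [mul_comm]; exact h.q3, h.q1, h.g23, h.g12.symm, h.g13.symm, by
      rw [show c2.natAbs * c3.natAbs * c1.natAbs = c1.natAbs * c2.natAbs * c3.natAbs by ring]; exact h.gd⟩

lemma SS3_swap (c1 c2 c3 d : ℤ) (P1 P2 P3 : ℕ) (G1 G2 G3 : ℕ → ℂ) :
    SS3 c1 c2 c3 d P1 P2 P3 G1 G2 G3 = SS3 c2 c1 c3 d P2 P1 P3 G2 G1 G3 := by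
  unfold SS3
  rw [sum_comm]
  refine sum_congr rfl fun x _ => sum_congr rfl fun y _ => sum_congr rfl fun z _ => ?_
  have e : (c1 * (y : ℤ) + c2 * (x : ℤ) + c3 * (z : ℤ) = d) ↔ (c2 * (x : ℤ) + c1 * (y : ℤ) + c3 * (z : ℤ) = d) := by
    constructor <;> intro h <;> linarith
  simp only [e]
  split_ifs <;> ring

lemma SS3_rot (c1 c2 c3 d : ℤ) (P1 P2 P3 : ℕ) (G1 G2 G3 : ℕ → ℂ) :
    SS3 c1 c2 c3 d P1 P2 P3 G1 G2 G3 = SS3 c2 c3 c1 d P2 P3 P1 G2 G3 G1 := by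
  unfold SS3
  rw [sum_comm]
  refine sum_congr rfl fun x _ => ?_
  rw [sum_comm]
  refine sum_congr rfl fun y _ => sum_congr rfl fun z _ => ?_
  have e : (c1 * (z : ℤ) + c2 * (x : ℤ) + c3 * (y : ℤ) = d) ↔ (c2 * (x : ℤ) + c3 * (y : ℤ) + c1 * (z : ℤ) = d) := by
    constructor <;> intro h <;> linarith
  simp only [e]
  split_ifs <;> ring

lemma SS3_tel (c1 c2 c3 d : ℤ) (P1 P2 P3 : ℕ) (G1 G2 G3 H1 H2 H3 : ℕ → ℂ) :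
    SS3 c1 c2 c3 d P1 P2 P3 G1 G2 G3 - SS3 c1 c2 c3 d P1 P2 P3 H1 H2 H3 =
      SS3 c1 c2 c3 d P1 P2 P3 (fun n => G1 n - H1 n) G2 G3 +
      SS3 c1 c2 c3 d P1 P2 P3 H1 (fun n => G2 n - H2 n) G3 +
      SS3 c1 c2 c3 d P1 P2 P3 H1 H2 (fun n => G3 n - H3 n) := by
  unfold SS3
  simp only [← sum_add_distrib, ← sum_sub_distrib]
  refine sum_congr rfl fun x _ => sum_congr rfl fun y _ => sum_congr rfl fun z _ => ?_
  split_ifs <;> ring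

lemma S3_coe (c1 c2 c3 d : ℤ) (P1 P2 P3 : ℕ) (g1 g2 g3 : ℕ → ℝ) :
    ((S3 c1 c2 c3 d P1 P2 P3 g1 g2 g3 : ℝ) : ℂ) =
      SS3 c1 c2 c3 d P1 P2 P3 (fun n => ((g1 n : ℝ) : ℂ)) (fun n => ((g2 n : ℝ) : ℂ)) (fun n => ((g3 n : ℝ) : ℂ)) := by
  unfold S3 SS3
  simp only [Complex.ofReal_sum]
  refine sum_congr rfl fun x _ => sum_congr rfl fun y _ => sum_congr rfl fun z _ => ?_
  split_ifs
  · push_cast; ring
  · simp

/-- the sizes -/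
lemma size7 (ρ : ℝ) (hρ : 0 < ρ) (P₀ : ℕ) {N : ℕ} (hN : 4 * (P₀ + 4) ^ 2 ≤ N) {T : ℕ} {c1 c2 c3 d : ℤ}
    {P1 P2 P3 : ℕ} (h : Par7 ρ N T c1 c2 c3 d P1 P2 P3) : P₀ ≤ P1 ∧ 1 ≤ P1 ∧ c1.natAbs * P1 ≤ N ∧
      Real.log N ≤ 3 * Real.log P1 ∧ Real.log P1 ≤ Real.log N ∧ ((c2.natAbs * c3.natAbs : ℕ) : ℝ) ≤ P1 := by
  have hN1 : 1 ≤ N := le_trans (Nat.one_le_iff_ne_zero.2 (by positivity)) hN
  have hpos : ∀ (c : ℤ) (P : ℕ), N < 2 * (c.natAbs * P) → 1 ≤ P := by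
    intro c P hc
    by_contra h0
    have : P = 0 := by omega
    subst this
    simp at hc
  have hP1 := hpos _ _ h.v1
  have hP2 := hpos _ _ h.v2
  have ha1 : 1 ≤ c1.natAbs := Int.natAbs_pos.2 h.n1
  have ha2 : 1 ≤ c2.natAbs := Int.natAbs_pos.2 h.n2
  have ha3 : 1 ≤ c3.natAbs := Int.natAbs_pos.2 h.n3
  have hP2N : P2 ≤ N := (Nat.le_mul_of_pos_left _ ha2).trans h.u2
  have hP1N : P1 ≤ N := (Nat.le_mul_of_pos_left _ ha1).trans h.u1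
  have hsq : c1.natAbs * c1.natAbs ≤ N := by
    have h1 : ((c1.natAbs : ℕ) : ℝ) ≤ (P2 : ℝ) ^ (1 / 2 : ℝ) := by
      have h2 : ((c1.natAbs : ℕ) : ℝ) ≤ ((c1.natAbs * c3.natAbs : ℕ) : ℝ) := by
        exact_mod_cast Nat.le_mul_of_pos_right _ ha3
      refine h2.trans (h.q2.trans ?_)
      exact Real.rpow_le_rpow_of_exponent_le (by exact_mod_cast hP2) (by linarith)
    have h2 : ((c1.natAbs : ℕ) : ℝ) * c1.natAbs ≤ P2 := by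
      calc ((c1.natAbs : ℕ) : ℝ) * c1.natAbs ≤ (P2 : ℝ) ^ (1 / 2 : ℝ) * (P2 : ℝ) ^ (1 / 2 : ℝ) :=
            mul_le_mul h1 h1 (Nat.cast_nonneg _) (by positivity)
        _ = P2 := by
            rw [← Real.rpow_add (by exact_mod_cast hP2)]
            norm_num
    have h3 : c1.natAbs * c1.natAbs ≤ P2 := by exact_mod_cast h2
    exact h3.trans hP2N
  have h4 : N < 4 * P1 ^ 2 := by
    have h5 : N * N < (2 * (c1.natAbs * P1)) * (2 * (c1.natAbs * P1)) := Nat.mul_lt_mul'' h.v1 h.v1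
    have h6 : (2 * (c1.natAbs * P1)) * (2 * (c1.natAbs * P1)) = 4 * P1 ^ 2 * (c1.natAbs * c1.natAbs) := by ring
    rw [h6] at h5
    have h7 : 4 * P1 ^ 2 * (c1.natAbs * c1.natAbs) ≤ 4 * P1 ^ 2 * N := Nat.mul_le_mul_left _ hsq
    exact Nat.lt_of_mul_lt_mul_right (h5.trans_le h7)
  have h5 : P₀ + 4 ≤ P1 := by
    by_contra hc
    have h6 : P1 ≤ P₀ + 4 := by omega
    have h7 : P1 ^ 2 ≤ (P₀ + 4) ^ 2 := Nat.pow_le_pow_left h6 2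
    omega
  refine ⟨by omega, hP1, h.u1, ?_, ?_, ?_⟩
  · have h6 : N ≤ P1 ^ 3 := by
      have h7 : 4 * P1 ^ 2 ≤ P1 * P1 ^ 2 := Nat.mul_le_mul_right _ (by omega)
      have h8 : P1 * P1 ^ 2 = P1 ^ 3 := by ring
      omega
    have h7 : Real.log N ≤ Real.log ((P1 : ℝ) ^ 3) := by
      apply Real.log_le_log (by exact_mod_cast hN1)
      exact_mod_cast h6
    rw [Real.log_pow] at h7
    exact_mod_cast h7
  · exact Real.log_le_log (by exact_mod_cast hP1) (by exact_mod_cast hP1N)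
  · refine h.q1.trans ?_
    calc (P1 : ℝ) ^ (1 / 2 - ρ) ≤ (P1 : ℝ) ^ (1 : ℝ) :=
          Real.rpow_le_rpow_of_exponent_le (by exact_mod_cast hP1) (by linarith)
      _ = P1 := Real.rpow_one _

lemma zP_bounds {B Bm P : ℕ} (hB : Bm ≤ B) (hL : 2 ≤ Real.log P) :
    Real.log P ^ Bm ≤ zP B P ∧ (zP B P : ℝ) ≤ Real.log P ^ (B + 1) := by
  have h1 : (1 : ℝ) ≤ Real.log P := by linarith
  unfold zP
  constructor
  · exact (pow_le_pow_right₀ h1 hB).trans (Nat.le_ceil _)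
  · have h2 := (Nat.ceil_lt_add_one (by positivity : 0 ≤ Real.log (P : ℝ) ^ B)).le
    have h3 : (1 : ℝ) ≤ Real.log P ^ B := one_le_pow₀ h1
    calc ((⌈Real.log (P : ℝ) ^ B⌉₊ : ℕ) : ℝ) ≤ Real.log P ^ B + 1 := h2
      _ ≤ 2 * Real.log P ^ B := by linarith
      _ ≤ Real.log P * Real.log P ^ B := mul_le_mul_of_nonneg_right hL (by positivity)
      _ = Real.log P ^ (B + 1) := by ring

/-- the trivial bound in square mean with the sizes -/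
lemma hold7 (h6 : HoldStm) {ρ : ℝ} {N T : ℕ} {c1 c2 c3 d : ℤ} {P1 P2 P3 : ℕ}
    (h : Par7 ρ N T c1 c2 c3 d P1 P2 P3) (hq : ((c2.natAbs * c3.natAbs : ℕ) : ℝ) ≤ P1) {G1 G2 G3 : ℕ → ℂ}
    {K1 K2 K3 X : ℝ} (hK1 : 0 ≤ K1) (hK2 : 0 ≤ K2) (hK3 : 0 ≤ K3) (hX : 0 ≤ X)
    (g1 : ∑ n ∈ Icc 1 P1, ‖G1 n‖ ^ 2 ≤ P1 * K1) (g2 : ∑ n ∈ Icc 1 P2, ‖G2 n‖ ^ 2 ≤ P2 * K2)
    (g3 : ∑ n ∈ Icc 1 P3, ‖G3 n‖ ^ 2 ≤ P3 * K3) (hK : 2 * (K1 * K2 * K3) ≤ X ^ 2) :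
    ‖SS3 c1 c2 c3 d P1 P2 P3 G1 G2 G3‖ ≤ (N : ℝ) ^ 2 / (c1.natAbs * c2.natAbs * c3.natAbs) * X := by
  have h1 := h6 c1 c2 c3 d P1 P2 P3 G1 G2 G3 h.n1 h.n2 h.n3 h.g12 h.g13 h.g23
  have ha1 : (0 : ℝ) < c1.natAbs := by exact_mod_cast Int.natAbs_pos.2 h.n1
  have ha2 : (0 : ℝ) < c2.natAbs := by exact_mod_cast Int.natAbs_pos.2 h.n2
  have ha3 : (0 : ℝ) < c3.natAbs := by exact_mod_cast Int.natAbs_pos.2 h.n3
  have hPr : ∀ (c : ℤ) (P : ℕ), (0 : ℝ) < c.natAbs → c.natAbs * P ≤ N → (P : ℝ) ≤ N / c.natAbs := by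
    intro c P ha h
    rw [le_div_iff₀ ha, mul_comm]
    exact_mod_cast h
  have hP1 := hPr c1 P1 ha1 h.u1
  have hP2 := hPr c2 P2 ha2 h.u2
  have hP3 := hPr c3 P3 ha3 h.u3
  obtain ⟨a1, ea1⟩ : ∃ a1 : ℝ, a1 = (c1.natAbs : ℝ) := ⟨_, rfl⟩
  obtain ⟨a2, ea2⟩ : ∃ a2 : ℝ, a2 = (c2.natAbs : ℝ) := ⟨_, rfl⟩
  obtain ⟨a3, ea3⟩ : ∃ a3 : ℝ, a3 = (c3.natAbs : ℝ) := ⟨_, rfl⟩
  push_cast at hq
  rw [← ea1] at ha1 hP1
  rw [← ea2] at ha2 hP2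
  rw [← ea3] at ha3 hP3
  rw [← ea2, ← ea3] at hq h1
  rw [← ea1, ← ea2, ← ea3]
  have hP10 : (0 : ℝ) ≤ P1 := Nat.cast_nonneg _
  have hP20 : (0 : ℝ) ≤ P2 := Nat.cast_nonneg _
  have hP30 : (0 : ℝ) ≤ P3 := Nat.cast_nonneg _
  have hN0 : (0 : ℝ) ≤ N := Nat.cast_nonneg _
  have h2 : (P1 : ℝ) / (a2 * a3) + 1 ≤ 2 * (P1 / (a2 * a3)) := by
    have : 1 ≤ (P1 : ℝ) / (a2 * a3) := by
      rw [le_div_iff₀ (by positivity), one_mul]; exact hq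
    linarith
  have h3 : ‖SS3 c1 c2 c3 d P1 P2 P3 G1 G2 G3‖ ^ 2 ≤ ((N : ℝ) ^ 2 / (a1 * a2 * a3) * X) ^ 2 := by
    refine h1.trans ?_
    calc ((P1 : ℝ) / (a2 * a3) + 1) * (∑ n ∈ Icc 1 P1, ‖G1 n‖ ^ 2) * (∑ n ∈ Icc 1 P2, ‖G2 n‖ ^ 2) *
          (∑ n ∈ Icc 1 P3, ‖G3 n‖ ^ 2) ≤ (2 * (P1 / (a2 * a3))) * (P1 * K1) * (P2 * K2) * (P3 * K3) := by
          gcongr
      _ ≤ (2 * ((N / a1) / (a2 * a3))) * ((N / a1) * K1) * ((N / a2) * K2) * ((N / a3) * K3) := by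
          gcongr
      _ = ((N : ℝ) ^ 2 / (a1 * a2 * a3)) ^ 2 * (2 * (K1 * K2 * K3)) := by
          field_simp
      _ ≤ ((N : ℝ) ^ 2 / (a1 * a2 * a3)) ^ 2 * X ^ 2 := mul_le_mul_of_nonneg_left hK (by positivity)
      _ = ((N : ℝ) ^ 2 / (a1 * a2 * a3) * X) ^ 2 := by ring
  exact (pow_le_pow_iff_left₀ (norm_nonneg _) (by positivity) (by norm_num)).1 h3

lemma ev_log (c : ℝ) : ∃ N₀ : ℕ, ∀ N : ℕ, N₀ ≤ N → c ≤ Real.log N := by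
  have h := (Real.tendsto_log_atTop.comp tendsto_natCast_atTop_atTop).eventually_ge_atTop c
  obtain ⟨N₀, h⟩ := Filter.eventually_atTop.1 h
  exact ⟨N₀, h⟩

theorem err7 (h1 : TernStm) (h2 : MajLStm) (h3 : MajHStm) (h4 : MinFStm) (h5 : ModelStm) (h6 : HoldStm) :
    Err7Stm := by
  intro A T B₀ ρ hρ
  have hρ2 : 0 < ρ / 2 := by linarith
  obtain ⟨A1, h1⟩ := h1 (A + 2) T ρ hρ
  obtain ⟨C1, NF, hF⟩ := h4 A1 (ρ / 2) hρ2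
  obtain ⟨A2, h1⟩ := h1 C1
  obtain ⟨C3, NL, hLm⟩ := h2 (A2 + 4) (C1 + 1) (ρ / 2) hρ2
  obtain ⟨NH, hH⟩ := h3 (A2 + 4) (C1 + 1) (ρ / 2) hρ2
  obtain ⟨U, N0, hT⟩ := h1 C3
  obtain ⟨V, hV⟩ : ∃ V : ℕ, V = 2 * A + 19 := ⟨_, rfl⟩
  obtain ⟨U', hU'⟩ : ∃ U' : ℕ, U' = U + A2 + 2 * V + 13 := ⟨_, rfl⟩
  obtain ⟨Bm, hM⟩ := h5 U'
  refine ⟨max B₀ Bm, le_max_left _ _, ?_⟩
  obtain ⟨B, hB⟩ : ∃ B : ℕ, B = max B₀ Bm := ⟨_, rfl⟩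
  rw [← hB]
  have hBm : Bm ≤ B := by rw [hB]; exact le_max_right _ _
  obtain ⟨NM, hM⟩ := hM (B + 1)
  obtain ⟨Ne, hNe⟩ := ev_log 2048
  obtain ⟨Nl, hNl⟩ := ev_log (2 * 3 ^ V + 6)
  obtain ⟨P₀, hP₀⟩ : ∃ P₀ : ℕ, P₀ = NF + NL + NH + NM + Ne := ⟨_, rfl⟩
  refine ⟨N0 + Nl + 4 * (P₀ + 4) ^ 2, fun N hN c1 c2 c3 d P1 P2 P3 hp => ?_⟩
  have hNP : 4 * (P₀ + 4) ^ 2 ≤ N := by omega
  have hp' := rot7 hp
  have hp'' := rot7 hp'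
  obtain ⟨p1, -, -, l1, m1, q1⟩ := size7 ρ hρ P₀ hNP hp
  obtain ⟨p2, -, -, l2, m2, -⟩ := size7 ρ hρ P₀ hNP hp'
  obtain ⟨p3, -, -, l3, m3, -⟩ := size7 ρ hρ P₀ hNP hp''
  have hsc : ∀ P : ℕ, P₀ ≤ P → ∃ r : ℕ, Sc ρ A1 C1 A2 C3 U V P (zP B P) r := by
    intro P hP
    have hL := hNe P (by omega)
    obtain ⟨z1, z2⟩ := zP_bounds (P := P) hBm (by linarith)
    obtain ⟨r, hr1, hr2⟩ := hM P (by omega) (zP B P) z1 z2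
    exact ⟨r, scale hL (by omega) (by omega) (by omega) (fun q _ hq => hF P (by omega) q hq)
      (fun q _ hq => hLm P (by omega) q hq) (fun q _ hq => hH P (by omega) q hq) hr1 hr2⟩
  obtain ⟨r1, s1⟩ := hsc P1 p1
  obtain ⟨r2, s2⟩ := hsc P2 p2
  obtain ⟨r3, s3⟩ := hsc P3 p3
  obtain ⟨L, hLd⟩ : ∃ L, L = Real.log (N : ℝ) := ⟨_, rfl⟩
  have hLN := hNl N (by omega)
  rw [← hLd] at l1 l2 l3 m1 m2 m3 hLN ⊢
  have h3V : (1 : ℝ) ≤ 3 ^ V := one_le_pow₀ (by norm_num)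
  have hL8 : 8 ≤ L := by linarith
  have hL0 : 0 < L := by linarith
  have hL1 : 1 ≤ L := by linarith
  have ha1 : (0 : ℝ) < c1.natAbs := by exact_mod_cast Int.natAbs_pos.2 hp.n1
  have ha2 : (0 : ℝ) < c2.natAbs := by exact_mod_cast Int.natAbs_pos.2 hp.n2
  have ha3 : (0 : ℝ) < c3.natAbs := by exact_mod_cast Int.natAbs_pos.2 hp.n3
  obtain ⟨μ, hμ⟩ : ∃ μ : ℝ, μ = (N : ℝ) ^ 2 / (c1.natAbs * c2.natAbs * c3.natAbs) := ⟨_, rfl⟩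
  have hμ0 : 0 ≤ μ := by rw [hμ]; positivity
  -- the three terms with a difference of small exponential sums
  have t1 : ‖SS3 c1 c2 c3 d P1 P2 P3 (FF (zP B P1) r1) LA LA‖ ≤ μ / L ^ (A + 2) := by
    have := hT N (by omega) hp (FF (zP B P1) r1) LA LA s1.mF s1.sF s2.sL s3.sL s1.sup s1.ncF
    rw [hμ, hLd]
    exact this
  have t2 : ‖SS3 c1 c2 c3 d P1 P2 P3 (LS (zP B P1) r1) (FF (zP B P2) r2) LA‖ ≤ μ / L ^ (A + 2) := by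
    have := hT N (by omega) (swap7 hp) (FF (zP B P2) r2) (LS (zP B P1) r1) LA s2.mF s2.sF s1.sS s3.sL s2.sup s2.ncF
    rw [SS3_swap, hμ, hLd, mul_comm (c1.natAbs : ℝ) (c2.natAbs : ℝ)]
    exact this
  have t3 : ‖SS3 c1 c2 c3 d P1 P2 P3 (LS (zP B P1) r1) (LS (zP B P2) r2) (FF (zP B P3) r3)‖ ≤
      μ / L ^ (A + 2) := by
    have := hT N (by omega) hp'' (FF (zP B P3) r3) (LS (zP B P1) r1) (LS (zP B P2) r2) s3.mF s3.sF s1.sS s2.sS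
      s3.sup s3.ncF
    rw [← SS3_rot c3 c1 c2 d P3 P1 P2, hμ, hLd,
      show (c1.natAbs : ℝ) * c2.natAbs * c3.natAbs = c3.natAbs * c1.natAbs * c2.natAbs by ring]
    exact this
  -- the three terms with the error of the model
  have hX0 : (0 : ℝ) ≤ 1 / L ^ (A + 2) := by positivity
  have kV : ∀ ℓ : ℝ, L ≤ 3 * ℓ → 1 / ℓ ^ V ≤ 3 ^ V / L ^ V := by
    intro ℓ h
    have hℓ : 0 < ℓ := by linarith
    rw [div_le_div_iff₀ (by positivity) (by positivity), one_mul, ← mul_pow]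
    exact pow_le_pow_left₀ hL0.le h V
  have k7 : ∀ ℓ : ℝ, L ≤ 3 * ℓ → ℓ ≤ L → ℓ ^ 7 ≤ L ^ 7 := by
    intro ℓ h h'
    exact pow_le_pow_left₀ (by linarith) h' 7
  have hK : 2 * ((3 ^ V / L ^ V) * L ^ 7 * L ^ 7) ≤ (1 / L ^ (A + 2)) ^ 2 := by
    rw [div_pow, one_pow, le_div_iff₀ (by positivity)]
    have e : 2 * ((3 ^ V / L ^ V) * L ^ 7 * L ^ 7) * (L ^ (A + 2)) ^ 2 = (2 * 3 ^ V) * L ^ (2 * A + 18) / L ^ V := by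
      rw [← pow_mul, show (A + 2) * 2 = 2 * A + 4 by ring, show 2 * A + 18 = 7 + 7 + (2 * A + 4) by ring, pow_add,
        pow_add]
      ring
    rw [e, div_le_one (by positivity), hV]
    calc (2 * 3 ^ (2 * A + 19) : ℝ) * L ^ (2 * A + 18) ≤ L * L ^ (2 * A + 18) := by
          apply mul_le_mul_of_nonneg_right _ (by positivity)
          rw [hV] at hLN
          linarith
      _ = L ^ (2 * A + 19) := by ring
  have fV : ∀ {P z r : ℕ}, Sc ρ A1 C1 A2 C3 U V P z r → L ≤ 3 * Real.log P →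
      ∑ n ∈ Icc 1 P, ‖LS z r n - LZ z n‖ ^ 2 ≤ P * (3 ^ V / L ^ V) := by
    intro P z r s h
    refine s.e2.trans ?_
    rw [div_eq_mul_one_div]
    exact mul_le_mul_of_nonneg_left (kV _ h) (Nat.cast_nonneg _)
  have fS : ∀ {P z r : ℕ}, Sc ρ A1 C1 A2 C3 U V P z r → L ≤ 3 * Real.log P → Real.log P ≤ L →
      ∑ n ∈ Icc 1 P, ‖LS z r n‖ ^ 2 ≤ P * L ^ 7 := by
    intro P z r s h h'
    exact s.s2.trans (mul_le_mul_of_nonneg_left (k7 _ h h') (Nat.cast_nonneg _))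
  have fZ : ∀ {P z r : ℕ}, Sc ρ A1 C1 A2 C3 U V P z r → L ≤ 3 * Real.log P → Real.log P ≤ L →
      ∑ n ∈ Icc 1 P, ‖LZ z n‖ ^ 2 ≤ P * L ^ 7 := by
    intro P z r s h h'
    exact s.l2.trans (mul_le_mul_of_nonneg_left (k7 _ h h') (Nat.cast_nonneg _))
  have hKa : (0 : ℝ) ≤ 3 ^ V / L ^ V := by positivity
  have hKb : (0 : ℝ) ≤ L ^ 7 := by positivity
  have t4 : ‖SS3 c1 c2 c3 d P1 P2 P3 (fun n => LS (zP B P1) r1 n - LZ (zP B P1) n) (LS (zP B P2) r2)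
      (LS (zP B P3) r3)‖ ≤ μ / L ^ (A + 2) := by
    have := hold7 h6 hp q1 hKa hKb hKb hX0 (fV s1 l1) (fS s2 l2 m2) (fS s3 l3 m3) hK
    rw [hμ, div_eq_mul_one_div]
    exact this
  have t5 : ‖SS3 c1 c2 c3 d P1 P2 P3 (LZ (zP B P1)) (fun n => LS (zP B P2) r2 n - LZ (zP B P2) n)
      (LS (zP B P3) r3)‖ ≤ μ / L ^ (A + 2) := by
    have := hold7 h6 hp q1 hKb hKa hKb hX0 (fZ s1 l1 m1) (fV s2 l2) (fS s3 l3 m3)
      (le_trans (le_of_eq (by ring)) hK)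
    rw [hμ, div_eq_mul_one_div]
    exact this
  have t6 : ‖SS3 c1 c2 c3 d P1 P2 P3 (LZ (zP B P1)) (LZ (zP B P2))
      (fun n => LS (zP B P3) r3 n - LZ (zP B P3) n)‖ ≤ μ / L ^ (A + 2) := by
    have := hold7 h6 hp q1 hKb hKb hKa hX0 (fZ s1 l1 m1) (fZ s2 l2 m2) (fV s3 l3)
      (le_trans (le_of_eq (by ring)) hK)
    rw [hμ, div_eq_mul_one_div]
    exact this
  -- assembling
  have hFF : ∀ z r : ℕ, (fun n => LA n - LS z r n) = FF z r := by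
    intro z r
    funext n
    unfold LA LS FF
    push_cast
    ring
  have hE : |S3 c1 c2 c3 d P1 P2 P3 (fun n => ArithmeticFunction.vonMangoldt n) (fun n => ArithmeticFunction.vonMangoldt n)
      (fun n => ArithmeticFunction.vonMangoldt n) -
    S3 c1 c2 c3 d P1 P2 P3 (fun n => lamz (zP B P1) n) (fun n => lamz (zP B P2) n)
      (fun n => lamz (zP B P3) n)| = ‖SS3 c1 c2 c3 d P1 P2 P3 LA LA LA -
        SS3 c1 c2 c3 d P1 P2 P3 (LZ (zP B P1)) (LZ (zP B P2)) (LZ (zP B P3))‖ := by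
    rw [← Real.norm_eq_abs, ← Complex.norm_real, Complex.ofReal_sub, S3_coe, S3_coe]
    rfl
  rw [hE, ← hμ]
  have hsplit : SS3 c1 c2 c3 d P1 P2 P3 LA LA LA -
        SS3 c1 c2 c3 d P1 P2 P3 (LZ (zP B P1)) (LZ (zP B P2)) (LZ (zP B P3)) =
      (SS3 c1 c2 c3 d P1 P2 P3 (FF (zP B P1) r1) LA LA +
       SS3 c1 c2 c3 d P1 P2 P3 (LS (zP B P1) r1) (FF (zP B P2) r2) LA +
       SS3 c1 c2 c3 d P1 P2 P3 (LS (zP B P1) r1) (LS (zP B P2) r2) (FF (zP B P3) r3)) +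
      (SS3 c1 c2 c3 d P1 P2 P3 (fun n => LS (zP B P1) r1 n - LZ (zP B P1) n) (LS (zP B P2) r2)
      (LS (zP B P3) r3) +
       SS3 c1 c2 c3 d P1 P2 P3 (LZ (zP B P1)) (fun n => LS (zP B P2) r2 n - LZ (zP B P2) n)
      (LS (zP B P3) r3) +
       SS3 c1 c2 c3 d P1 P2 P3 (LZ (zP B P1)) (LZ (zP B P2))
      (fun n => LS (zP B P3) r3 n - LZ (zP B P3) n)) := by
    rw [← SS3_tel, ← hFF, ← hFF, ← hFF, ← SS3_tel]
    ring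
  rw [hsplit]
  have hy : 0 ≤ μ / L ^ (A + 2) := by positivity
  calc ‖_‖ ≤ (μ / L ^ (A + 2) + μ / L ^ (A + 2) + μ / L ^ (A + 2)) +
        (μ / L ^ (A + 2) + μ / L ^ (A + 2) + μ / L ^ (A + 2)) := by
        refine (norm_add_le _ _).trans (add_le_add ?_ ?_)
        · exact (norm_add₃_le).trans (add_le_add (add_le_add t1 t2) t3)
        · exact (norm_add₃_le).trans (add_le_add (add_le_add t4 t5) t6)
    _ = ((6 : ℕ) : ℝ) * (μ / L ^ (A + 2)) := by push_cast; ring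
    _ ≤ μ / L ^ A := divpow2 hμ0 (by norm_num; linarith) hL1 (by omega)

end Pool.Agent.Y949.GJ
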