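import Pool.Agent.Y883.GJ.Stm4
import Pool.Agent.TH935.LP.L1

set_option autoImplicit false

/-! Project GJ of helper883: the replacement of the primes by the sieve models, the facts at one scale
(helper949). -/

namespace Pool.Agent.Y949.GJ

open Finset
open Pool.Agent.Y883.GJ
open Pool.Agent.H807R2.Dav (ee)
open Pool.Agent.H373R2.T7 (lamz Vz pz Vz_pos lamz_nonneg)
open Pool.Agent.Y883.T3 (lsh)
open Pool.Agent.Y883.T6 (S3 zP)

/-- the sieve model with complex values -/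
noncomputable def LZ (z n : ℕ) : ℂ := ((lamz z n : ℝ) : ℂ)

/-- the facts at one scale -/
structure Sc (ρ : ℝ) (A1 C1 A2 C3 U V P z r : ℕ) : Prop where
  sL : Str (ρ / 2) A2 (C1 + 1) C3 P LA
  sS : Str (ρ / 2) A2 (C1 + 1) C3 P (LS z r)
  sF : Str (ρ / 2) A2 (C1 + 1) C3 P (FF z r)
  mF : Mnr (ρ / 2) A1 C1 P (FF z r)
  sup : ∀ α : ℝ, ‖∑ n ∈ Icc 1 P, FF z r n * ee (n * α)‖ ≤ P / Real.log P ^ U
  ncF : ∀ q : ℕ, 1 ≤ q → q ≤ P →
    ∑ n ∈ (Icc 1 P).filter (fun n => ¬ n.Coprime q), ‖FF z r n‖ ≤ P / Real.log P ^ U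
  e2 : ∑ n ∈ Icc 1 P, ‖LS z r n - LZ z n‖ ^ 2 ≤ P / Real.log P ^ V
  s2 : ∑ n ∈ Icc 1 P, ‖LS z r n‖ ^ 2 ≤ P * Real.log P ^ 7
  l2 : ∑ n ∈ Icc 1 P, ‖LZ z n‖ ^ 2 ≤ P * Real.log P ^ 7

lemma divpow {x L : ℝ} (hx : 0 ≤ x) (hL : 1 ≤ L) {a b : ℕ} (h : b ≤ a) : x / L ^ a ≤ x / L ^ b := by
  have h1 : 0 < L ^ b := by positivity
  exact div_le_div_of_nonneg_left hx h1 (pow_le_pow_right₀ hL h)

lemma divpow2 {x L : ℝ} (hx : 0 ≤ x) {k : ℕ} (hL : (k : ℝ) ≤ L) (hL1 : 1 ≤ L) {a b : ℕ} (h : b + 1 ≤ a) :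
    k * (x / L ^ a) ≤ x / L ^ b := by
  have h0 : 0 < L := by linarith
  rw [mul_div_assoc', div_le_div_iff₀ (by positivity) (by positivity)]
  calc (k : ℝ) * x * L ^ b ≤ L * x * L ^ b := by gcongr
    _ = x * L ^ (b + 1) := by ring
    _ ≤ x * L ^ a := mul_le_mul_of_nonneg_left (pow_le_pow_right₀ hL1 h) hx

/-- second moment of a function bounded by a multiple of the number of divisors -/
lemma sq_mom {P : ℕ} {L : ℝ} (hL : L = Real.log P) (hL1 : 64 ≤ L) {G : ℕ → ℂ}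
    (hG : ∀ n ∈ Icc 1 P, ‖G n‖ ≤ L * (n.divisors.card : ℝ)) :
    ∑ n ∈ Icc 1 P, ‖G n‖ ^ 2 ≤ P * L ^ 7 := by
  have h := Pool.Agent.TH935.LD.tau_pow_sum 2 P
  rw [← hL] at h
  calc ∑ n ∈ Icc 1 P, ‖G n‖ ^ 2 ≤ ∑ n ∈ Icc 1 P, L ^ 2 * (n.divisors.card : ℝ) ^ 2 := by
        apply sum_le_sum
        intro n hn
        rw [← mul_pow]
        exact pow_le_pow_left₀ (norm_nonneg _) (hG n hn) 2
    _ = L ^ 2 * ∑ n ∈ Icc 1 P, (n.divisors.card : ℝ) ^ 2 := by rw [mul_sum]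
    _ ≤ L ^ 2 * (P * (1 + L) ^ (2 ^ 2)) := mul_le_mul_of_nonneg_left h (by positivity)
    _ ≤ L ^ 2 * (P * (2 * L) ^ 4) := by
        have : (1 + L) ^ 4 ≤ (2 * L) ^ 4 := pow_le_pow_left₀ (by linarith) (by linarith) 4
        norm_num
        gcongr
    _ = P * (16 * L ^ 6) := by ring
    _ ≤ P * (L * L ^ 6) := by gcongr; linarith
    _ = P * L ^ 7 := by ring

/-- second moment of a function with small mean value -/
lemma sq_small {P V U : ℕ} {L : ℝ} (hL : L = Real.log P) (hL1 : 2048 ≤ L) (hU : 2 * V + 12 ≤ U) {G : ℕ → ℂ}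
    (hG : ∀ n ∈ Icc 1 P, ‖G n‖ ≤ 2 * L * (n.divisors.card : ℝ))
    (h1 : ∑ n ∈ Icc 1 P, ‖G n‖ ≤ P / L ^ U) : ∑ n ∈ Icc 1 P, ‖G n‖ ^ 2 ≤ P / L ^ V := by
  have h := Pool.Agent.TH935.LD.tau_pow_sum 3 P
  rw [← hL] at h
  have hL0 : 0 < L := by linarith
  have h3 : ∑ n ∈ Icc 1 P, ‖G n‖ ^ 3 ≤ P * L ^ 12 := by
    calc ∑ n ∈ Icc 1 P, ‖G n‖ ^ 3 ≤ ∑ n ∈ Icc 1 P, (2 * L) ^ 3 * (n.divisors.card : ℝ) ^ 3 := by
          apply sum_le_sum
          intro n hn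
          rw [← mul_pow]
          exact pow_le_pow_left₀ (norm_nonneg _) (hG n hn) 3
      _ = (2 * L) ^ 3 * ∑ n ∈ Icc 1 P, (n.divisors.card : ℝ) ^ 3 := by rw [mul_sum]
      _ ≤ (2 * L) ^ 3 * (P * (1 + L) ^ (2 ^ 3)) := mul_le_mul_of_nonneg_left h (by positivity)
      _ ≤ (2 * L) ^ 3 * (P * (2 * L) ^ 8) := by
          have : (1 + L) ^ 8 ≤ (2 * L) ^ 8 := pow_le_pow_left₀ (by linarith) (by linarith) 8
          norm_num
          gcongr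
      _ = P * (2048 * L ^ 11) := by ring
      _ ≤ P * (L * L ^ 11) := by gcongr
      _ = P * L ^ 12 := by ring
  have hcs : (∑ n ∈ Icc 1 P, ‖G n‖ ^ 2) ^ 2 ≤ (∑ n ∈ Icc 1 P, ‖G n‖) * ∑ n ∈ Icc 1 P, ‖G n‖ ^ 3 := by
    have := Finset.sum_mul_sq_le_sq_mul_sq (Icc 1 P) (fun n => √‖G n‖) (fun n => √(‖G n‖ ^ 3))
    have e1 : ∑ n ∈ Icc 1 P, √‖G n‖ * √(‖G n‖ ^ 3) = ∑ n ∈ Icc 1 P, ‖G n‖ ^ 2 := by
      apply sum_congr rfl
      intro n _
      rw [← Real.sqrt_mul (norm_nonneg _), show ‖G n‖ * ‖G n‖ ^ 3 = (‖G n‖ ^ 2) ^ 2 by ring,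
        Real.sqrt_sq (by positivity)]
    have e2 : ∑ n ∈ Icc 1 P, √‖G n‖ ^ 2 = ∑ n ∈ Icc 1 P, ‖G n‖ :=
      sum_congr rfl fun n _ => Real.sq_sqrt (norm_nonneg _)
    have e3 : ∑ n ∈ Icc 1 P, √(‖G n‖ ^ 3) ^ 2 = ∑ n ∈ Icc 1 P, ‖G n‖ ^ 3 :=
      sum_congr rfl fun n _ => Real.sq_sqrt (by positivity)
    rw [e1, e2, e3] at this
    exact this
  have h4 : (∑ n ∈ Icc 1 P, ‖G n‖ ^ 2) ^ 2 ≤ (P / L ^ V) ^ 2 := by
    refine hcs.trans ?_
    calc (∑ n ∈ Icc 1 P, ‖G n‖) * ∑ n ∈ Icc 1 P, ‖G n‖ ^ 3 ≤ (P / L ^ U) * (P * L ^ 12) :=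
          mul_le_mul h1 h3 (sum_nonneg fun n _ => by positivity) (by positivity)
      _ ≤ (P / L ^ (2 * V + 12)) * (P * L ^ 12) := by
          apply mul_le_mul_of_nonneg_right (divpow (Nat.cast_nonneg _) (by linarith) hU) (by positivity)
      _ = (P / L ^ V) ^ 2 := by
          rw [pow_add, show 2 * V = V * 2 by ring, pow_mul]
          field_simp
  exact (pow_le_pow_iff_left₀ (sum_nonneg fun n _ => by positivity) (by positivity) (by norm_num)).1 h4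

lemma cs_sub (q N z r : ℕ) (η : ℝ) (χ : DirichletCharacter ℂ q) :
    cs q N (FF z r) η χ = cs q N LA η χ - cs q N (LS z r) η χ := by
  unfold cs
  rw [← sum_sub_distrib]
  apply sum_congr rfl
  intro n _
  unfold FF LA LS
  push_cast
  ring

lemma sq_sub_le (x y : ℂ) : ‖x - y‖ ^ 2 ≤ 2 * ‖x‖ ^ 2 + 2 * ‖y‖ ^ 2 := by
  have h := norm_sub_le x y
  have h1 : ‖x - y‖ ^ 2 ≤ (‖x‖ + ‖y‖) ^ 2 := pow_le_pow_left₀ (norm_nonneg _) h 2
  nlinarith [sq_nonneg (‖x‖ - ‖y‖)]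

/-- the facts at one scale -/
theorem scale {ρ : ℝ} {A1 C1 A2 C3 U V U' P z r : ℕ} (hL : 2048 ≤ Real.log P)
    (hU : U ≤ U') (hA : A2 + 1 ≤ U') (hV : 2 * V + 12 ≤ U')
    (hF : ∀ (q : ℕ) [NeZero q], (q : ℝ) ≤ (P : ℝ) ^ (1 / 2 - ρ / 2) → ∀ z r : ℕ,
      ((((z + 1) ^ r) ^ 100 : ℕ) : ℝ) ≤ P → (Vz z)⁻¹ ≤ Real.log P →
      ∀ (k : ℕ) (h : ℤ) (β : ℝ), Real.log P ^ C1 ≤ k → (q : ℝ) * k * Real.log P ^ C1 ≤ P →
        IsCoprime h (k : ℤ) → |q * β - h / k| ≤ 1 / (k : ℝ) ^ 2 →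
        ∑ χ : DirichletCharacter ℂ q, ‖cs q P (FF z r) β χ‖ ^ 2 ≤ (P : ℝ) ^ 2 / Real.log P ^ A1)
    (hLm : ∀ (q : ℕ) [NeZero q], (q : ℝ) ≤ (P : ℝ) ^ (1 / 2 - ρ / 2) →
      ∃ B : Finset (DirichletCharacter ℂ q), 1 ∈ B ∧ (B.card : ℝ) ≤ Real.log P ^ C3 ∧
        ∀ η : ℝ, |η| ≤ Real.log P ^ (C1 + 1) / P → ∀ S : Finset (DirichletCharacter ℂ q), Disjoint S B →
          ∑ χ ∈ S, ‖cs q P LA η χ‖ ^ 2 ≤ (P : ℝ) ^ 2 / Real.log P ^ (A2 + 4))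
    (hH : ∀ (q : ℕ) [NeZero q], (q : ℝ) ≤ (P : ℝ) ^ (1 / 2 - ρ / 2) → ∀ z r : ℕ,
      ((((z + 1) ^ r) ^ 100 : ℕ) : ℝ) ≤ P → (Vz z)⁻¹ ≤ Real.log P →
      ∀ η : ℝ, |η| ≤ Real.log P ^ (C1 + 1) / P → ∀ S : Finset (DirichletCharacter ℂ q), 1 ∉ S →
        ∑ χ ∈ S, ‖cs q P (LS z r) η χ‖ ^ 2 ≤ (P : ℝ) ^ 2 / Real.log P ^ (A2 + 4))
    (hP : Par U' P z r) (hm : ∑ n ∈ Icc 1 P, |lamz z n - lsh z r n| ≤ P / Real.log P ^ U') :
    Sc ρ A1 C1 A2 C3 U V P z r := by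
  obtain ⟨L, hLd⟩ : ∃ L, L = Real.log (P : ℝ) := ⟨_, rfl⟩
  have hD := hP.hD
  have hVz := hP.hV
  have hTb := hP.hT
  have hS := hP.hS
  have hC := hP.hC
  have hLc := hP.hL
  rw [← hLd] at hL hF hLm hH hm hVz hTb hS hC hLc
  have hL1 : 1 ≤ L := by linarith
  have hL0 : 0 < L := by linarith
  have hP0 : (0 : ℝ) ≤ P := Nat.cast_nonneg _
  have htau : ∀ n ∈ Icc 1 P, (1 : ℝ) ≤ (n.divisors.card : ℝ) := by
    intro n hn
    rw [mem_Icc] at hn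
    exact_mod_cast Finset.card_pos.2 ⟨1, Nat.one_mem_divisors.2 (by omega)⟩
  have hLn : ∀ n ∈ Icc 1 P, ‖LA n‖ ≤ L := by
    intro n hn
    rw [mem_Icc] at hn
    unfold LA
    rw [Complex.norm_real, Real.norm_eq_abs, abs_of_nonneg ArithmeticFunction.vonMangoldt_nonneg]
    refine ArithmeticFunction.vonMangoldt_le_log.trans ?_
    rw [hLd]
    apply Real.log_le_log (by exact_mod_cast hn.1) (by exact_mod_cast hn.2)
  have hSn : ∀ n ∈ Icc 1 P, ‖LS z r n‖ ≤ L * (n.divisors.card : ℝ) := by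
    intro n hn
    have h1 := htau n hn
    rw [mem_Icc] at hn
    unfold LS
    rw [Complex.norm_real, Real.norm_eq_abs]
    refine (Pool.Agent.Y883.T3.lsh_le z r n hn.1).trans ?_
    exact mul_le_mul_of_nonneg_right hVz (by linarith)
  have hZn : ∀ n ∈ Icc 1 P, ‖LZ z n‖ ≤ L * (n.divisors.card : ℝ) := by
    intro n hn
    have h1 := htau n hn
    unfold LZ
    rw [Complex.norm_real, Real.norm_eq_abs, abs_of_nonneg (lamz_nonneg z n)]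
    have h2 : lamz z n ≤ (Vz z)⁻¹ := by
      unfold lamz
      split_ifs
      · exact le_rfl
      · exact (inv_pos.2 (Vz_pos z)).le
    calc lamz z n ≤ L := h2.trans hVz
      _ = L * 1 := (mul_one L).symm
      _ ≤ _ := mul_le_mul_of_nonneg_left h1 hL0.le
  have hFn : ∀ n, ‖FF z r n‖ = |ArithmeticFunction.vonMangoldt n - lsh z r n| := by
    intro n
    unfold FF
    rw [Complex.norm_real, Real.norm_eq_abs]
  have hncL : ∀ q : ℕ, 1 ≤ q → q ≤ P →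
      ∑ n ∈ (Icc 1 P).filter (fun n => ¬ n.Coprime q), ‖LA n‖ ≤ P / L ^ U' := by
    intro q h1 h2
    refine le_trans (le_of_eq ?_) (hLc q h1 h2)
    apply sum_congr rfl
    intro n _
    unfold LA
    rw [Complex.norm_real, Real.norm_eq_abs, abs_of_nonneg ArithmeticFunction.vonMangoldt_nonneg]
  have hncF : ∀ q : ℕ, 1 ≤ q → q ≤ P →
      ∑ n ∈ (Icc 1 P).filter (fun n => ¬ n.Coprime q), ‖FF z r n‖ ≤ P / L ^ U' := by
    intro q h1 h2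
    refine le_trans (le_of_eq ?_) (hC q h1 h2)
    apply sum_congr rfl
    intro n _
    rw [hFn]
  have hLS : ∀ n, LS z r n = LA n - FF z r n := by
    intro n
    unfold LS LA FF
    push_cast
    ring
  have hmajL : ∀ (q : ℕ) [NeZero q], (q : ℝ) ≤ (P : ℝ) ^ (1 / 2 - ρ / 2) →
      ∃ B : Finset (DirichletCharacter ℂ q), 1 ∈ B ∧ (B.card : ℝ) ≤ L ^ C3 ∧
        ∀ η : ℝ, |η| ≤ L ^ (C1 + 1) / P → ∀ S : Finset (DirichletCharacter ℂ q), Disjoint S B →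
          ∑ χ ∈ S, ‖cs q P LA η χ‖ ^ 2 ≤ (P : ℝ) ^ 2 / L ^ (A2 + 4) := hLm
  refine ⟨⟨?_, ?_, ?_⟩, ⟨?_, ?_, ?_⟩, ⟨?_, ?_, ?_⟩, ?_, ?_, ?_, ?_, ?_, ?_⟩ <;> (try rw [← hLd])
  · intro n hn
    have h1 := hLn n hn
    have h2 := htau n hn
    calc ‖LA n‖ ≤ L := h1
      _ ≤ 2 * L * 1 := by linarith
      _ ≤ _ := mul_le_mul_of_nonneg_left h2 (by positivity)
  · intro q h1 h2
    exact (hncL q h1 h2).trans (divpow hP0 hL1 (by omega))
  · intro q _ hq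
    obtain ⟨B, -, hB, h⟩ := hmajL q hq
    exact ⟨B, hB, fun η hη S hS => (h η hη S hS).trans (divpow (by positivity) hL1 (by omega))⟩
  · intro n hn
    have h1 := hSn n hn
    have h2 := htau n hn
    refine h1.trans ?_
    apply mul_le_mul_of_nonneg_right _ (by linarith)
    linarith
  · intro q h1 h2
    have h3 : ∑ n ∈ (Icc 1 P).filter (fun n => ¬ n.Coprime q), ‖LS z r n‖ ≤ 2 * (P / L ^ U') := by
      calc ∑ n ∈ (Icc 1 P).filter (fun n => ¬ n.Coprime q), ‖LS z r n‖ ≤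
            ∑ n ∈ (Icc 1 P).filter (fun n => ¬ n.Coprime q), (‖LA n‖ + ‖FF z r n‖) := by
              apply sum_le_sum
              intro n _
              rw [hLS]
              exact norm_sub_le _ _
        _ ≤ P / L ^ U' + P / L ^ U' := by
            rw [sum_add_distrib]
            exact add_le_add (hncL q h1 h2) (hncF q h1 h2)
        _ = _ := by ring
    exact h3.trans (by exact_mod_cast divpow2 (k := 2) hP0 (by norm_num; linarith) hL1 hA)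
  · intro q _ hq
    refine ⟨{1}, ?_, fun η hη S hS => ?_⟩
    · rw [card_singleton, Nat.cast_one]
      exact one_le_pow₀ hL1
    · have h1 : (1 : DirichletCharacter ℂ q) ∉ S := by
        rw [disjoint_singleton_right] at hS
        exact hS
      exact (hH q hq z r hD hVz η hη S h1).trans (divpow (by positivity) hL1 (by omega))
  · intro n hn
    rw [hFn]
    exact hTb n hn
  · intro q h1 h2
    exact (hncF q h1 h2).trans (divpow hP0 hL1 (by omega))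
  · intro q _ hq
    obtain ⟨B, h1B, hB, h⟩ := hmajL q hq
    refine ⟨B, hB, fun η hη S hS => ?_⟩
    have h1 : (1 : DirichletCharacter ℂ q) ∉ S := fun h' => (Finset.disjoint_left.1 hS h') h1B
    have k1 := h η hη S hS
    have k2 := hH q hq z r hD hVz η hη S h1
    calc ∑ χ ∈ S, ‖cs q P (FF z r) η χ‖ ^ 2 ≤
          ∑ χ ∈ S, (2 * ‖cs q P LA η χ‖ ^ 2 + 2 * ‖cs q P (LS z r) η χ‖ ^ 2) := by
            apply sum_le_sum
            intro χ _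
            rw [cs_sub]
            exact sq_sub_le _ _
      _ = 2 * ∑ χ ∈ S, ‖cs q P LA η χ‖ ^ 2 + 2 * ∑ χ ∈ S, ‖cs q P (LS z r) η χ‖ ^ 2 := by
          rw [sum_add_distrib, mul_sum, mul_sum]
      _ ≤ ((4 : ℕ) : ℝ) * ((P : ℝ) ^ 2 / L ^ (A2 + 4)) := by push_cast; linarith
      _ ≤ (P : ℝ) ^ 2 / L ^ A2 := divpow2 (by positivity) (by norm_num; linarith) hL1 (by omega)
  · intro q _ hq k h β
    rw [← hLd]
    exact hF q hq z r hD hVz k h β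
  · intro α
    exact (hS α).trans (divpow hP0 hL1 hU)
  · intro q h1 h2
    exact (hncF q h1 h2).trans (divpow hP0 hL1 hU)
  · apply sq_small hLd hL hV
    · intro n hn
      refine (norm_sub_le _ _).trans ?_
      have h1 := hSn n hn
      have h2 := hZn n hn
      linarith
    · refine le_trans (le_of_eq ?_) hm
      apply sum_congr rfl
      intro n _
      unfold LS LZ
      rw [← Complex.ofReal_sub, Complex.norm_real, Real.norm_eq_abs, abs_sub_comm]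
  · exact sq_mom hLd (by linarith) hSn
  · exact sq_mom hLd (by linarith) hZn

end Pool.Agent.Y949.GJ
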